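import Mathlib

set_option autoImplicit false

namespace Pool.Agent.H.MP_fd6048_an

open Polynomial Filter Topology Set

theorem pow_mem_span {𝕂 V : Type} [Field 𝕂] [AddCommGroup V] [Module 𝕂 V]
    (S : Module.End 𝕂 V) (P : 𝕂[X]) (hP : P.Monic) (h0 : aeval S P = 0) (v : V) (n : ℕ) :
    (S ^ n) v ∈ Submodule.span 𝕂 (range fun i : Fin P.natDegree => (S ^ (i : ℕ)) v) := by
  have h1 : aeval S ((X ^ n : 𝕂[X]) %ₘ P) = S ^ n := by
    rw [aeval_modByMonic_eq_self_of_root h0]; simp
  have hdeg := degree_modByMonic_lt (X ^ n : 𝕂[X]) hP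
  rw [← h1, aeval_eq_sum_range, LinearMap.sum_apply]
  refine Submodule.sum_mem _ fun i _ => ?_
  rw [LinearMap.smul_apply]
  by_cases hi : i < P.natDegree
  · exact Submodule.smul_mem _ _ (Submodule.subset_span ⟨⟨i, hi⟩, rfl⟩)
  · have : ((X ^ n : 𝕂[X]) %ₘ P).coeff i = 0 := by
      apply coeff_eq_zero_of_degree_lt
      refine lt_of_lt_of_le hdeg ?_
      rw [degree_eq_natDegree hP.ne_zero]
      exact_mod_cast not_lt.mp hi
    rw [this, zero_smul]
    exact Submodule.zero_mem _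

theorem span_top {𝕂 V : Type} [RCLike 𝕂] [AddCommGroup V] [Module 𝕂 V] [TopologicalSpace V]
    [IsTopologicalAddGroup V] [ContinuousSMul 𝕂 V] [T2Space V]
    (S : Module.End 𝕂 V) (P : 𝕂[X]) (hP : P.Monic) (h0 : aeval S P = 0) (v : V)
    (hv : Dense (range fun n : ℕ => (S ^ n) v)) :
    ⊤ ≤ Submodule.span 𝕂 (range fun i : Fin P.natDegree => (S ^ (i : ℕ)) v) := by
  set F := Submodule.span 𝕂 (range fun i : Fin P.natDegree => (S ^ (i : ℕ)) v) with hF
  have : FiniteDimensional 𝕂 F := FiniteDimensional.span_of_finite 𝕂 (finite_range _)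
  have hc : IsClosed (F : Set V) := F.closed_of_finiteDimensional
  intro w _
  have : closure (range fun n : ℕ => (S ^ n) v) ⊆ (F : Set V) := by
    refine closure_minimal ?_ hc
    rintro _ ⟨n, rfl⟩
    exact pow_mem_span S P hP h0 v n
  exact this (hv w)

theorem subsingleton_of_root {𝕂 V : Type} [RCLike 𝕂] [AddCommGroup V] [Module 𝕂 V]
    [TopologicalSpace V] [IsTopologicalAddGroup V] [ContinuousSMul 𝕂 V] [T2Space V]
    (S : Module.End 𝕂 V) (P : 𝕂[X]) (hP : P.Monic) (h0 : aeval S P = 0) (v : V)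
    (hv : Dense (range fun n : ℕ => (S ^ n) v)) : Subsingleton V := by
  by_contra hne
  have : Nontrivial V := not_subsingleton_iff_nontrivial.mp hne
  have : FiniteDimensional 𝕂 V := by
    have h := span_top S P hP h0 v hv
    have h2 : Submodule.span 𝕂 (range fun i : Fin P.natDegree => (S ^ (i : ℕ)) v) = ⊤ :=
      top_le_iff.mp h
    exact Module.finite_def.mpr (h2 ▸ Submodule.fg_span (finite_range _))
  have h := span_top S S.charpoly S.charpoly_monic S.aeval_self_charpoly v hv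
  have hN : S.charpoly.natDegree = Module.finrank 𝕂 V := S.charpoly_natDegree
  have hpos : 0 < Module.finrank 𝕂 V := Module.finrank_pos
  let b := basisOfTopLeSpanOfCardEqFinrank _ h (by simpa using hN)
  have hb : ⇑b = fun i : Fin S.charpoly.natDegree => (S ^ (i : ℕ)) v :=
    coe_basisOfTopLeSpanOfCardEqFinrank _ _ _
  let D : V → 𝕂 := fun w => b.det (fun i : Fin S.charpoly.natDegree => (S ^ (i : ℕ)) w)
  have hDc : Continuous D := by
    simp only [D, Module.Basis.det_apply]
    refine Continuous.matrix_det (continuous_matrix fun i j => ?_)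
    simp only [Module.Basis.toMatrix_apply]
    exact ((b.coord i).comp (S ^ (j : ℕ))).continuous_of_finiteDimensional
  have hD : ∀ f : Module.End 𝕂 V, Commute f S → D (f v) = LinearMap.det f := by
    intro f hf
    have e : (fun i : Fin S.charpoly.natDegree => (S ^ (i : ℕ)) (f v)) = f ∘ b := by
      funext i
      rw [hb]
      have := (hf.pow_right (i : ℕ)).eq
      simp only [Function.comp]
      rw [← Module.End.mul_apply, ← this, Module.End.mul_apply]
    simp only [D]
    rw [e, Module.Basis.det_comp, Module.Basis.det_self, mul_one]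
  have hDn : ∀ n : ℕ, ‖D ((S ^ n) v)‖ = ‖LinearMap.det S‖ ^ n := by
    intro n
    rw [hD _ ((Commute.refl S).pow_left n), map_pow, norm_pow]
  have hDs : ∀ c : 𝕂, ‖D (c • v)‖ = ‖c‖ ^ Module.finrank 𝕂 V := by
    intro c
    have := hD (c • (1 : Module.End 𝕂 V)) ((Commute.one_left S).smul_left c)
    rw [LinearMap.det_smul, map_one, mul_one] at this
    rw [← norm_pow, ← this]
    simp
  rcases le_total ‖LinearMap.det S‖ 1 with hr | hr
  · have hcl : IsClosed {w | ‖D w‖ ≤ 1} := isClosed_le hDc.norm continuous_const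
    have : closure (range fun n : ℕ => (S ^ n) v) ⊆ {w | ‖D w‖ ≤ 1} := by
      refine closure_minimal ?_ hcl
      rintro _ ⟨n, rfl⟩
      show ‖D _‖ ≤ 1
      rw [hDn]
      exact pow_le_one₀ (norm_nonneg _) hr
    have h2 : ‖D ((2 : 𝕂) • v)‖ ≤ 1 := this (hv _)
    rw [hDs] at h2
    have h3 : ‖(2 : 𝕂)‖ = 2 := by simp
    rw [h3] at h2
    have : (1 : ℝ) < 2 ^ Module.finrank 𝕂 V := one_lt_pow₀ (by norm_num) hpos.ne'
    linarith
  · have hcl : IsClosed {w | 1 ≤ ‖D w‖} := isClosed_le continuous_const hDc.norm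
    have : closure (range fun n : ℕ => (S ^ n) v) ⊆ {w | 1 ≤ ‖D w‖} := by
      refine closure_minimal ?_ hcl
      rintro _ ⟨n, rfl⟩
      show 1 ≤ ‖D _‖
      rw [hDn]
      exact one_le_pow₀ hr
    have h2 : 1 ≤ ‖D ((0 : 𝕂) • v)‖ := this (hv _)
    rw [hDs, norm_zero, zero_pow hpos.ne'] at h2
    linarith

section
variable {𝕂 X : Type} [RCLike 𝕂] [AddCommGroup X] [Module 𝕂 X] [TopologicalSpace X]
  [IsTopologicalAddGroup X] [ContinuousSMul 𝕂 X]

def HC (T : X →L[𝕂] X) (x : X) : Prop := Dense (range fun n : ℕ => (T ^ n) x)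

theorem denseRange_aeval (T : X →L[𝕂] X) (x : X) (hx : HC T x) (Q : 𝕂[X]) (hQ : Q ≠ 0) :
    DenseRange (aeval T Q : X →L[𝕂] X) := by
  set A : X →L[𝕂] X := aeval T Q with hA
  let L : Submodule 𝕂 X := (LinearMap.range (A : X →ₗ[𝕂] X)).topologicalClosure
  have hLc : IsClosed (L : Set X) := Submodule.isClosed_topologicalClosure _
  have hcomm : Commute T A := by
    have : Commute (aeval T (Polynomial.X : 𝕂[X])) (aeval T Q) := (Commute.all _ _).map (aeval T)
    simpa using this
  have hT : L ≤ L.comap (T : X →ₗ[𝕂] X) := by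
    intro y hy
    have : MapsTo T (LinearMap.range (A : X →ₗ[𝕂] X) : Set X)
        (LinearMap.range (A : X →ₗ[𝕂] X) : Set X) := by
      rintro _ ⟨z, rfl⟩
      refine ⟨T z, ?_⟩
      show (A * T) z = (T * A) z
      rw [hcomm.eq]
    exact (this.closure T.continuous) hy
  let S : Module.End 𝕂 (X ⧸ L) := L.mapQ L (T : X →ₗ[𝕂] X) hT
  have hS : ∀ y, S (L.mkQ y) = L.mkQ (T y) := fun y => rfl
  have hSn : ∀ (n : ℕ) y, (S ^ n) (L.mkQ y) = L.mkQ ((T ^ n) y) := by
    intro n
    induction n with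
    | zero => intro y; simp
    | succ n ih =>
      intro y
      rw [pow_succ, pow_succ, Module.End.mul_apply, hS, ih]; rfl
  have hSP : ∀ (P : 𝕂[X]) y, (aeval S P) (L.mkQ y) = L.mkQ ((aeval T P : X →L[𝕂] X) y) := by
    intro P y
    rw [aeval_eq_sum_range, aeval_eq_sum_range, LinearMap.sum_apply,
      ContinuousLinearMap.sum_apply, map_sum]
    refine Finset.sum_congr rfl fun i _ => ?_
    rw [LinearMap.smul_apply, ContinuousLinearMap.smul_apply, map_smul, hSn]
  have hSQ : aeval S Q = 0 := by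
    apply LinearMap.ext
    intro w
    obtain ⟨y, rfl⟩ := L.mkQ_surjective w
    rw [hSP, LinearMap.zero_apply, Submodule.mkQ_apply, Submodule.Quotient.mk_eq_zero]
    exact Submodule.le_topologicalClosure _ ⟨y, rfl⟩
  have hq : Continuous L.mkQ := continuous_quot_mk
  have hv : Dense (range fun n : ℕ => (S ^ n) (L.mkQ x)) := by
    have := (L.mkQ_surjective.denseRange).dense_image hq hx
    refine this.mono ?_
    rintro _ ⟨_, ⟨n, rfl⟩, rfl⟩
    exact ⟨n, hSn n x⟩
  have hsub : Subsingleton (X ⧸ L) :=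
    subsingleton_of_root S (Q * C Q.leadingCoeff⁻¹) (monic_mul_leadingCoeff_inv hQ)
      (by rw [map_mul, hSQ, zero_mul]) _ hv
  have htop : L = ⊤ := Submodule.Quotient.subsingleton_iff.mp hsub
  intro y
  have : y ∈ L := htop ▸ Submodule.mem_top
  exact this

theorem HC_map (T A : X →L[𝕂] X) (hc : Commute T A) (hA : DenseRange A) (x : X) (hx : HC T x) :
    HC T (A x) := by
  have := hA.dense_image A.continuous hx
  refine this.mono ?_
  rintro _ ⟨_, ⟨n, rfl⟩, rfl⟩
  refine ⟨n, ?_⟩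
  show (T ^ n * A) x = (A * T ^ n) x
  rw [(hc.pow_left n).eq]

theorem HC_aeval (T : X →L[𝕂] X) (x : X) (hx : HC T x) (Q : 𝕂[X]) (hQ : Q ≠ 0) :
    HC T ((aeval T Q : X →L[𝕂] X) x) := by
  refine HC_map T _ ?_ (denseRange_aeval T x hx Q hQ) x hx
  have : Commute (aeval T (Polynomial.X : 𝕂[X])) (aeval T Q) := (Commute.all _ _).map (aeval T)
  simpa using this

theorem HC_smul (T : X →L[𝕂] X) (x : X) (hx : HC T x) (c : 𝕂) (hc : c ≠ 0) :
    HC T (c • x) := by
  have := HC_aeval T x hx (C c) (by simpa using hc)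
  simpa [Algebra.algebraMap_eq_smul_one] using this

theorem HC_sum (T : X →L[𝕂] X) (x : X) (hx : HC T x) (N : ℕ) (a : ℕ → 𝕂) (k : ℕ → ℕ)
    (hk : Function.Injective k) (j : ℕ) (hj : j < N) (ha : a j ≠ 0) :
    HC T (∑ n ∈ Finset.range N, a n • (T ^ k n) x) := by
  have hQ : (∑ n ∈ Finset.range N, monomial (k n) (a n) : 𝕂[X]) ≠ 0 := by
    intro h
    have := congrArg (fun P : 𝕂[X] => P.coeff (k j)) h
    simp only [finset_sum_coeff, coeff_monomial, coeff_zero] at this
    rw [Finset.sum_eq_single j (fun b _ hb => if_neg fun e => hb (hk e))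
      (fun h => absurd (Finset.mem_range.mpr hj) h)] at this
    exact ha (by simpa using this)
  have := HC_aeval T x hx _ hQ
  rw [map_sum, ContinuousLinearMap.sum_apply] at this
  simpa [aeval_monomial, Algebra.algebraMap_eq_smul_one] using this

theorem freq (T : X →L[𝕂] X) (x : X) (hx : HC T x) (y : X) (W : Set X) (hW : W ∈ 𝓝 y) :
    ∃ᶠ n in atTop, (T ^ n) x ∈ W := by
  rw [frequently_atTop]
  intro m
  have h := HC_aeval T x hx (Polynomial.X ^ m) (pow_ne_zero _ X_ne_zero)
  simp only [map_pow, aeval_X] at h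
  obtain ⟨_, ⟨n, rfl⟩, hz⟩ := h.inter_nhds_nonempty hW
  refine ⟨n + m, Nat.le_add_left _ _, ?_⟩
  rw [pow_add]
  exact hz

theorem dense_tuples (T : X →L[𝕂] X) (x : X) (hx : HC T x) :
    Dense {y : ℕ → X | ∃ k : ℕ → ℕ, StrictMono k ∧ y = fun i => (T ^ k i) x} := by
  intro y
  rw [mem_closure_iff_nhds]
  intro s hs
  rw [nhds_pi, Filter.mem_pi] at hs
  obtain ⟨I, -, t, ht, hts⟩ := hs
  obtain ⟨k, hk, hkt⟩ := extraction_forall_of_frequently
    (P := fun i n => (T ^ n) x ∈ t i) (fun i => freq T x hx (y i) (t i) (ht i))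
  exact ⟨_, hts fun i _ => hkt i, k, hk, rfl⟩

end

end Pool.Agent.H.MP_fd6048_an
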